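import Pool.Agent.Lib.MP_efe87e_co.Basic

set_option autoImplicit false

namespace Pool.Agent.Results.MP_efe87e_co.FractionalExceedsInteger

open Finset Pool.Agent.Lib.MP_efe87e_co

/-- two disjoint four-cycles and a disjoint edge -/
def H0 : Finset (Finset (Fin 10)) :=
  {{0, 1}, {1, 2}, {2, 3}, {3, 0}, {4, 5}, {5, 6}, {6, 7}, {7, 4}, {8, 9}}

theorem forall_H0 (p : Finset (Fin 10) → Prop) : (∀ E ∈ H0, p E) ↔
    p {0, 1} ∧ p {1, 2} ∧ p {2, 3} ∧ p {3, 0} ∧ p {4, 5} ∧ p {5, 6} ∧ p {6, 7} ∧ p {7, 4} ∧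
      p {8, 9} := by
  unfold H0
  simp only [Finset.forall_mem_insert, Finset.mem_singleton, forall_eq]

theorem exists_H0 (p : Finset (Fin 10) → Prop) : (∃ E ∈ H0, p E) ↔
    p {0, 1} ∨ p {1, 2} ∨ p {2, 3} ∨ p {3, 0} ∨ p {4, 5} ∨ p {5, 6} ∨ p {6, 7} ∨ p {7, 4} ∨
      p {8, 9} := by
  unfold H0
  simp only [Finset.exists_mem_insert, Finset.mem_singleton, exists_eq_left]

theorem H0_card : ∀ E ∈ H0, E.card = 2 := by
  rw [forall_H0]
  decide

theorem H0_nonempty : ∀ E ∈ H0, E.Nonempty := by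
  rw [forall_H0]
  decide

/-- covered, as a Boolean -/
def cov (S : Finset (Fin 10)) : Bool :=
  decide (0 ∈ S ∨ 1 ∈ S) && decide (1 ∈ S ∨ 2 ∈ S) && decide (2 ∈ S ∨ 3 ∈ S) &&
    decide (3 ∈ S ∨ 0 ∈ S) && decide (4 ∈ S ∨ 5 ∈ S) && decide (5 ∈ S ∨ 6 ∈ S) &&
    decide (6 ∈ S ∨ 7 ∈ S) && decide (7 ∈ S ∨ 4 ∈ S) && decide (8 ∈ S ∨ 9 ∈ S)

/-- legal pick, as a Boolean -/
def leg (S : Finset (Fin 10)) (v : Fin 10) : Bool :=
  decide ((v = 0 ∨ v = 1) ∧ 0 ∉ S ∧ 1 ∉ S) || decide ((v = 1 ∨ v = 2) ∧ 1 ∉ S ∧ 2 ∉ S) ||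
    decide ((v = 2 ∨ v = 3) ∧ 2 ∉ S ∧ 3 ∉ S) || decide ((v = 3 ∨ v = 0) ∧ 3 ∉ S ∧ 0 ∉ S) ||
    decide ((v = 4 ∨ v = 5) ∧ 4 ∉ S ∧ 5 ∉ S) || decide ((v = 5 ∨ v = 6) ∧ 5 ∉ S ∧ 6 ∉ S) ||
    decide ((v = 6 ∨ v = 7) ∧ 6 ∉ S ∧ 7 ∉ S) || decide ((v = 7 ∨ v = 4) ∧ 7 ∉ S ∧ 4 ∉ S) ||
    decide ((v = 8 ∨ v = 9) ∧ 8 ∉ S ∧ 9 ∉ S)

theorem cov_iff (S : Finset (Fin 10)) : IntCovered H0 S ↔ cov S = true := by
  unfold IntCovered cov
  rw [forall_H0]
  simp only [Finset.mem_insert, Finset.mem_singleton, exists_eq_or_imp, exists_eq_left,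
    Bool.and_eq_true, decide_eq_true_eq, and_assoc]

theorem legal_iff (S : Finset (Fin 10)) (v : Fin 10) :
    (∃ E ∈ H0, v ∈ E ∧ ∀ x ∈ E, x ∉ S) ↔ leg S v = true := by
  unfold leg
  rw [exists_H0]
  simp only [Finset.mem_insert, Finset.mem_singleton, forall_eq_or_imp, forall_eq,
    Bool.or_eq_true, decide_eq_true_eq, or_assoc]

/-! ### The integer game -/

/-- last round -/
theorem int_last (S : Finset (Fin 10)) (h0 : ¬ IntCovered H0 S)
    (h1 : ∃ v, ∃ E ∈ H0, v ∈ E ∧ ∀ x ∈ E, x ∉ S)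
    (h2 : ∀ v, (∃ E ∈ H0, v ∈ E ∧ ∀ x ∈ E, x ∉ S) → ¬ IntCovered H0 (insert v S) ∧
      ∃ u, (∃ E ∈ H0, u ∈ E ∧ ∀ x ∈ E, x ∉ insert v S) ∧ IntCovered H0 (insert u (insert v S)) ∧
        (insert u (insert v S)).card ≤ 5) :
    Forces (IntMove H0) (IntCovered H0) (fun S => S.card ≤ 5) false S := by
  refine Forces.opp _ h0 ?_ ?_
  · obtain ⟨v, hv⟩ := h1
    exact ⟨insert v S, v, hv, rfl⟩
  · rintro q ⟨v, hv, rfl⟩
    obtain ⟨h3, u, h4, h5, h6⟩ := h2 v hv
    exact Forces.own _ _ h3 ⟨u, h4, rfl⟩ (Forces.done _ _ h5 h6)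

theorem int_last' (S : Finset (Fin 10)) (h : S = {0, 2, 8} ∨ S = {1, 3, 8} ∨ S = {4, 6, 8} ∨
    S = {5, 7, 8}) : Forces (IntMove H0) (IntCovered H0) (fun S => S.card ≤ 5) false S := by
  apply int_last
  · rw [cov_iff]
    rcases h with rfl | rfl | rfl | rfl <;> decide
  · simp only [legal_iff]
    rcases h with rfl | rfl | rfl | rfl <;> decide
  · simp only [legal_iff, cov_iff]
    rcases h with rfl | rfl | rfl | rfl <;> decide

theorem int_upper : Forces (IntMove H0) (IntCovered H0) (fun S => S.card ≤ 5) true ∅ := by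
  refine Forces.own _ {8} (by rw [cov_iff]; decide)
    ⟨8, by rw [legal_iff]; decide, by decide⟩ ?_
  refine Forces.opp _ (by rw [cov_iff]; decide)
    ⟨insert 0 {8}, 0, by rw [legal_iff]; decide, rfl⟩ ?_
  rintro q ⟨v, hv, rfl⟩
  rw [legal_iff] at hv
  have key : ∃ u, (∃ E ∈ H0, u ∈ E ∧ ∀ x ∈ E, x ∉ insert v ({8} : Finset (Fin 10))) ∧
      ¬ IntCovered H0 (insert v {8}) ∧
      (insert u (insert v ({8} : Finset (Fin 10))) = {0, 2, 8} ∨
       insert u (insert v ({8} : Finset (Fin 10))) = {1, 3, 8} ∨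
       insert u (insert v ({8} : Finset (Fin 10))) = {4, 6, 8} ∨
       insert u (insert v ({8} : Finset (Fin 10))) = {5, 7, 8}) := by
    simp only [legal_iff, cov_iff]
    revert v
    decide
  obtain ⟨u, h1, h2, h3⟩ := key
  exact Forces.own _ _ h2 ⟨u, h1, rfl⟩ (int_last' _ h3)

theorem five_of {S : Finset (Fin 10)} {a b c d e : Fin 10} (ha : a ∈ S) (hb : b ∈ S) (hc : c ∈ S)
    (hd : d ∈ S) (he : e ∈ S) (h : ({a, b, c, d, e} : Finset (Fin 10)).card = 5) : 5 ≤ S.card := by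
  rw [← h]
  apply Finset.card_le_card
  intro x hx
  simp only [Finset.mem_insert, Finset.mem_singleton] at hx
  rcases hx with rfl | rfl | rfl | rfl | rfl <;> assumption

theorem five_le {S : Finset (Fin 10)} (h : IntCovered H0 S) : 5 ≤ S.card := by
  unfold IntCovered at h
  rw [forall_H0] at h
  simp only [Finset.mem_insert, Finset.mem_singleton, exists_eq_or_imp, exists_eq_left] at h
  obtain ⟨h01, -, h23, -, h45, -, h67, -, h89⟩ := h
  rcases h01 with h1 | h1 <;> rcases h23 with h2 | h2 <;> rcases h45 with h3 | h3 <;>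
    rcases h67 with h4 | h4 <;> rcases h89 with h5 | h5 <;> exact five_of h1 h2 h3 h4 h5 (by decide)

theorem int_lower (b : Bool) (S : Finset (Fin 10)) :
    Forces (IntMove H0) (IntCovered H0) (fun S => 5 ≤ S.card) b S := by
  apply forces_of_inv (fun _ => True) (fun S => 10 - S.card)
  · rintro p q - hp ⟨v, ⟨E, hE, hvE, hx⟩, rfl⟩
    refine ⟨trivial, fun _ => ?_⟩
    have hv : v ∉ p := hx v hvE
    rw [Finset.card_insert_of_notMem hv]
    have : p.card < 10 := by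
      have h1 : (insert v p).card ≤ Fintype.card (Fin 10) := Finset.card_le_univ _
      rw [Finset.card_insert_of_notMem hv, Fintype.card_fin] at h1
      omega
    omega
  · intro p _ hp
    unfold IntCovered at hp
    push Not at hp
    obtain ⟨E, hE, hx⟩ := hp
    obtain ⟨v, hv⟩ := H0_nonempty E hE
    exact ⟨insert v p, v, ⟨E, hE, hv, hx⟩, rfl⟩
  · intro p _ hp
    exact five_le hp
  · trivial

/-! ### The fractional game -/

theorem sum_ten (t : Fin 10 → ℝ) : ∑ v, t v =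
    t 0 + t 1 + t 2 + t 3 + t 4 + t 5 + t 6 + t 7 + t 8 + t 9 := by
  have h : ∑ v, t v = t 0 + (t 1 + (t 2 + (t 3 + (t 4 + (t 5 + (t 6 + (t 7 + (t 8 + (t 9 + 0))))))))) := by
    simp only [Fin.sum_univ_succ, Fin.sum_univ_zero]
    rfl
  rw [h]
  ring

theorem fcov_iff (t : Fin 10 → ℝ) : FracCovered H0 t ↔
    1 ≤ t 0 + t 1 ∧ 1 ≤ t 1 + t 2 ∧ 1 ≤ t 2 + t 3 ∧ 1 ≤ t 3 + t 0 ∧
    1 ≤ t 4 + t 5 ∧ 1 ≤ t 5 + t 6 ∧ 1 ≤ t 6 + t 7 ∧ 1 ≤ t 7 + t 4 ∧ 1 ≤ t 8 + t 9 := by
  rw [covered_iff, forall_H0]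
  rw [Finset.sum_pair (by decide), Finset.sum_pair (by decide), Finset.sum_pair (by decide),
    Finset.sum_pair (by decide), Finset.sum_pair (by decide), Finset.sum_pair (by decide),
    Finset.sum_pair (by decide), Finset.sum_pair (by decide), Finset.sum_pair (by decide)]

theorem mem_H0 (E : Finset (Fin 10)) : E ∈ H0 ↔ E = {0, 1} ∨ E = {1, 2} ∨ E = {2, 3} ∨
    E = {3, 0} ∨ E = {4, 5} ∨ E = {5, 6} ∨ E = {6, 7} ∨ E = {7, 4} ∨ E = {8, 9} := by
  unfold H0
  simp only [Finset.mem_insert, Finset.mem_singleton]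

/-- one of the edges of the two cycles has got a weight of at least `9/8` -/
def Exc (t : Fin 10 → ℝ) : Prop :=
  9 / 8 ≤ t 0 + t 1 ∨ 9 / 8 ≤ t 1 + t 2 ∨ 9 / 8 ≤ t 2 + t 3 ∨ 9 / 8 ≤ t 3 + t 0 ∨
    9 / 8 ≤ t 4 + t 5 ∨ 9 / 8 ≤ t 5 + t 6 ∨ 9 / 8 ≤ t 6 + t 7 ∨ 9 / 8 ≤ t 7 + t 4

theorem Exc.mono {t t' : Fin 10 → ℝ} (h : Exc t) (hle : ∀ u, t u ≤ t' u) : Exc t' := by
  have h0 := hle 0
  have h1 := hle 1
  have h2 := hle 2
  have h3 := hle 3
  have h4 := hle 4
  have h5 := hle 5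
  have h6 := hle 6
  have h7 := hle 7
  unfold Exc at h ⊢
  rcases h with h | h | h | h | h | h | h | h
  · left; linarith
  · right; left; linarith
  · right; right; left; linarith
  · right; right; right; left; linarith
  · right; right; right; right; left; linarith
  · right; right; right; right; right; left; linarith
  · right; right; right; right; right; right; left; linarith
  · right; right; right; right; right; right; right; linarith

theorem Exc.pay {t : Fin 10 → ℝ} (h : Exc t) (hc : FracCovered H0 t) : 41 / 8 ≤ ∑ v, t v := by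
  rw [fcov_iff] at hc
  rw [sum_ten]
  obtain ⟨h1, h2, h3, h4, h5, h6, h7, h8, h9⟩ := hc
  unfold Exc at h
  rcases h with h | h | h | h | h | h | h | h <;> linarith

theorem five_le_sum {t : Fin 10 → ℝ} (hc : FracCovered H0 t) : 5 ≤ ∑ v, t v := by
  rw [fcov_iff] at hc
  rw [sum_ten]
  obtain ⟨h1, h2, h3, h4, h5, h6, h7, h8, h9⟩ := hc
  linarith

/-- early waste -/
theorem early (t : Fin 10 → ℝ) (h0 : ∀ u, 0 ≤ t u) (p q r s : Fin 10) (hpq : p ≠ q) (hps : s ≠ p)
    (hqr : q ≠ r) (hsp : ({s, p} : Finset (Fin 10)) ∈ H0) (hrq : ({q, r} : Finset (Fin 10)) ∈ H0)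
    (hpr : r ≠ p) (hM : t p + t q + t r + t s ≤ 1) (h : 1 / 8 ≤ t p + t q) :
    ∃ t' s', Sub H0 t t' s' ∧ s' ≤ 1 ∧ 9 / 8 ≤ t' p + t' q := by
  have hp := h0 p
  have hq := h0 q
  have hr := h0 r
  have hs := h0 s
  have s1 := Sub.step (H := H0) t 0 p (1 - t s - t p) Sub.refl (by linarith)
    (fun _ => ⟨{s, p}, hsp, by simp, by rw [Finset.sum_pair hps]; linarith⟩)
  have s2 := Sub.step _ _ q (t s + t p) s1 (by linarith)
    (fun _ => ⟨{q, r}, hrq, by simp, by
      rw [Finset.sum_pair hqr]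
      simp only [if_neg hpq.symm, if_neg hpr]
      linarith⟩)
  refine ⟨_, _, s2, by linarith, ?_⟩
  simp only [if_true, if_neg hpq, if_neg hpq.symm]
  linarith

/-- late waste -/
theorem late (t : Fin 10 → ℝ) (h0 : ∀ u, 0 ≤ t u) (p q r s : Fin 10) (hpq : p ≠ q) (hps : s ≠ p)
    (hqr : q ≠ r) (hsp : ({s, p} : Finset (Fin 10)) ∈ H0) (hrq : ({q, r} : Finset (Fin 10)) ∈ H0)
    (hpr : r ≠ p) (hM : 1 ≤ t p + t q + t r + t s) (h : t r + t s ≤ 7 / 8) :
    ∃ t' s', Sub H0 t t' s' ∧ s' ≤ 1 ∧ 9 / 8 ≤ t' p + t' q := by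
  have hp := h0 p
  have hq := h0 q
  have hr := h0 r
  have hs := h0 s
  have a1 := le_max_left 0 (1 - t s - t p)
  have a2 := le_max_right 0 (1 - t s - t p)
  have b1 := le_max_left 0 (1 - t r - t q)
  have b2 := le_max_right 0 (1 - t r - t q)
  have a3 : max 0 (1 - t s - t p) = 0 ∨ max 0 (1 - t s - t p) = 1 - t s - t p := max_choice _ _
  have b3 : max 0 (1 - t r - t q) = 0 ∨ max 0 (1 - t r - t q) = 1 - t r - t q := max_choice _ _
  set w1 := max 0 (1 - t s - t p)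
  set w2 := max 0 (1 - t r - t q)
  have s1 := Sub.step (H := H0) t 0 p w1 Sub.refl a1
    (fun hpos => ⟨{s, p}, hsp, by simp, by
      rw [Finset.sum_pair hps]
      rcases a3 with h | h <;> linarith⟩)
  have s2 := Sub.step _ _ q w2 s1 b1
    (fun hpos => ⟨{q, r}, hrq, by simp, by
      rw [Finset.sum_pair hqr]
      simp only [if_neg hpq.symm, if_neg hpr]
      rcases b3 with h | h <;> linarith⟩)
  refine ⟨_, _, s2, ?_, ?_⟩
  · rcases a3 with h | h <;> rcases b3 with h' | h' <;> rw [h, h'] <;> linarith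
  · simp only [if_true, if_neg hpq, if_neg hpq.symm]
    linarith

/-- from a position with an overloaded edge every play ends with at least `41/8` -/
theorem forces_exc (b : Bool) (t : Fin 10 → ℝ) (h0 : ∀ u, 0 ≤ t u) (h1 : ∀ u, t u ≤ 1)
    (he : Exc t) : Forces (FracMove H0) (FracCovered H0) (fun t => 41 / 8 ≤ ∑ v, t v) b t := by
  apply forces_of_inv (fun t : Fin 10 → ℝ => (∀ u, 0 ≤ t u) ∧ (∀ u, t u ≤ 1) ∧ Exc t)
    (fun t => ⌊10 - ∑ v, t v⌋₊)
  · rintro p q ⟨hp0, hp1, hpe⟩ - hpq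
    have hle := hpq.le
    refine ⟨⟨fun u => (hp0 u).trans (hle u), hpq.le_one hp0 hp1, hpe.mono hle⟩, fun hq => ?_⟩
    have ht := hpq.total.2 hq
    have hq1 : ∑ v, q v ≤ 10 := by
      have : ∑ v : Fin 10, q v ≤ ∑ v : Fin 10, (1 : ℝ) :=
        Finset.sum_le_sum (fun u _ => hpq.le_one hp0 hp1 u)
      simpa using this
    have h2 : 10 - ∑ v, p v = (10 - ∑ v, q v) + 1 := by rw [ht]; ring
    rw [h2, Nat.floor_add_one (by linarith)]
    exact Nat.lt_succ_self _
  · rintro p - -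
    obtain ⟨t', ht', -⟩ := Sub.complete (H := H0) (t := p) Sub.refl zero_le_one H0_nonempty 0
    exact ⟨t', ht'⟩
  · rintro p ⟨-, -, hpe⟩ hc
    exact hpe.pay hc
  · exact ⟨h0, h1, he⟩

/-- a partial move that creates an overloaded edge is enough -/
theorem forces_of_sub (t : Fin 10 → ℝ) (h0 : ∀ u, 0 ≤ t u) (h1 : ∀ u, t u ≤ 1)
    (hn : ¬ FracCovered H0 t) (h : ∃ t' s', Sub H0 t t' s' ∧ s' ≤ 1 ∧ Exc t') :
    Forces (FracMove H0) (FracCovered H0) (fun t => 41 / 8 ≤ ∑ v, t v) true t := by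
  obtain ⟨t', s', hsub, hs', he⟩ := h
  obtain ⟨t2, hm, hle⟩ := hsub.complete hs' H0_nonempty 0
  exact Forces.own t t2 hn hm (forces_exc false t2 (fun u => (h0 u).trans (hm.le u))
    (hm.le_one h0 h1) (he.mono hle))

theorem set89 : ∀ E ∈ H0, ∀ x ∈ ({8, 9} : Finset (Fin 10)), x ∈ E → ({8, 9} : Finset (Fin 10)) ⊆ E := by
  rw [forall_H0]
  exact ⟨by decide, by decide, by decide, by decide, by decide, by decide, by decide, by decide,
    by decide⟩

theorem frac_lower : Forces (FracMove H0) (FracCovered H0) (fun t => 41 / 8 ≤ ∑ v, t v) false 0 := by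
  have hex : ∀ t : Fin 10 → ℝ, ∃ t', FracMove H0 t t' := by
    intro t
    obtain ⟨t', ht', -⟩ := Sub.complete (H := H0) (t := t) Sub.refl zero_le_one H0_nonempty 0
    exact ⟨t', ht'⟩
  have hz : ∑ v : Fin 10, (0 : Fin 10 → ℝ) v = 0 := by simp
  refine Forces.opp 0 (fun h => ?_) (hex 0) ?_
  · have := five_le_sum h
    rw [hz] at this
    linarith
  intro t1 hm1
  -- the position after the first move of Edge-hitter
  have h10 : ∀ u, 0 ≤ t1 u := fun u => hm1.le u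
  have h11 : ∀ u, t1 u ≤ 1 := hm1.le_one (fun _ => le_rfl) (fun _ => zero_le_one)
  have hs1 : ∑ v, t1 v ≤ 1 := by
    have := hm1.total.1
    rw [hz] at this
    linarith
  have hn1 : ¬ FracCovered H0 t1 := by
    intro h
    have := five_le_sum h
    linarith
  have hs1' : ∑ v, t1 v = 1 := by
    have := hm1.total.2 hn1
    rw [hz] at this
    linarith
  have h189 : t1 8 + t1 9 ≤ 1 := by
    have := hm1.set_le {8, 9} set89 (fun _ => le_rfl) (by simp)
    rwa [Finset.sum_pair (by decide)] at this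
  have hsum := sum_ten t1
  rw [hs1'] at hsum
  have n0 := h10 0
  have n1 := h10 1
  have n2 := h10 2
  have n3 := h10 3
  have n4 := h10 4
  have n5 := h10 5
  have n6 := h10 6
  have n7 := h10 7
  have n8 := h10 8
  have n9 := h10 9
  by_cases ha : 1 / 4 ≤ t1 0 + t1 1 + t1 2 + t1 3
  · apply forces_of_sub t1 h10 h11 hn1
    rcases le_total (t1 2 + t1 3) (t1 0 + t1 1) with h | h
    · obtain ⟨t', s', a, b, c⟩ := early t1 h10 0 1 2 3 (by decide) (by decide) (by decide)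
        (by rw [mem_H0]; decide) (by rw [mem_H0]; decide) (by decide) (by linarith) (by linarith)
      exact ⟨t', s', a, b, Or.inl c⟩
    · obtain ⟨t', s', a, b, c⟩ := early t1 h10 2 3 0 1 (by decide) (by decide) (by decide)
        (by rw [mem_H0]; decide) (by rw [mem_H0]; decide) (by decide) (by linarith) (by linarith)
      exact ⟨t', s', a, b, Or.inr (Or.inr (Or.inl c))⟩
  by_cases hb : 1 / 4 ≤ t1 4 + t1 5 + t1 6 + t1 7
  · apply forces_of_sub t1 h10 h11 hn1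
    rcases le_total (t1 6 + t1 7) (t1 4 + t1 5) with h | h
    · obtain ⟨t', s', a, b, c⟩ := early t1 h10 4 5 6 7 (by decide) (by decide) (by decide)
        (by rw [mem_H0]; decide) (by rw [mem_H0]; decide) (by decide) (by linarith) (by linarith)
      exact ⟨t', s', a, b, Or.inr (Or.inr (Or.inr (Or.inr (Or.inl c))))⟩
    · obtain ⟨t', s', a, b, c⟩ := early t1 h10 6 7 4 5 (by decide) (by decide) (by decide)
        (by rw [mem_H0]; decide) (by rw [mem_H0]; decide) (by decide) (by linarith) (by linarith)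
      exact ⟨t', s', a, b, Or.inr (Or.inr (Or.inr (Or.inr (Or.inr (Or.inr (Or.inl c))))))⟩
  push Not at ha hb
  -- Staller puts one half on a vertex of each cycle
  have s1 := Sub.step (H := H0) t1 0 0 (1 / 2) Sub.refl (by norm_num)
    (fun _ => ⟨{0, 1}, by rw [mem_H0]; decide, by decide, by
      rw [Finset.sum_pair (by decide)]; linarith⟩)
  have s2 := Sub.step _ _ 4 (1 / 2) s1 (by norm_num)
    (fun _ => ⟨{4, 5}, by rw [mem_H0]; decide, by decide, by
      rw [Finset.sum_pair (by decide)]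
      simp only [if_neg (show (4 : Fin 10) ≠ 0 by decide), if_neg (show (5 : Fin 10) ≠ 0 by decide)]
      linarith⟩)
  have hm2 := s2.fracMove 0 (Or.inl (by norm_num))
  set t2 : Fin 10 → ℝ := fun u => (t1 u + if u = 0 then (1 / 2 : ℝ) else 0) +
    if u = 4 then (1 / 2 : ℝ) else 0 with ht2
  refine Forces.own t1 t2 hn1 hm2 ?_
  have e0 : t2 0 = t1 0 + 1 / 2 := by simp [ht2]
  have e1 : t2 1 = t1 1 := by simp [ht2]
  have e2 : t2 2 = t1 2 := by simp [ht2]
  have e3 : t2 3 = t1 3 := by simp [ht2]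
  have e4 : t2 4 = t1 4 + 1 / 2 := by simp [ht2]
  have e5 : t2 5 = t1 5 := by simp [ht2]
  have e6 : t2 6 = t1 6 := by simp [ht2]
  have e7 : t2 7 = t1 7 := by simp [ht2]
  have e8 : t2 8 = t1 8 := by simp [ht2]
  have e9 : t2 9 = t1 9 := by simp [ht2]
  have h20 : ∀ u, 0 ≤ t2 u := fun u => (h10 u).trans (hm2.le u)
  have h21 : ∀ u, t2 u ≤ 1 := hm2.le_one h10 h11
  have hs2 : ∑ v, t2 v = 2 := by
    rw [sum_ten, e0, e1, e2, e3, e4, e5, e6, e7, e8, e9]
    linarith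
  have hn2 : ¬ FracCovered H0 t2 := by
    intro h
    have := five_le_sum h
    linarith
  refine Forces.opp t2 hn2 (hex t2) ?_
  intro t3 hm3
  -- the position after the second move of Edge-hitter
  have hs3 : ∑ v, t3 v ≤ 3 := by
    have := hm3.total.1
    linarith
  have hn3 : ¬ FracCovered H0 t3 := by
    intro h
    have := five_le_sum h
    linarith
  have hs3' : ∑ v, t3 v = 3 := by
    have := hm3.total.2 hn3
    linarith
  have h389 : t3 8 + t3 9 ≤ 1 := by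
    have := hm3.set_le {8, 9} set89 h20 (by rw [Finset.sum_pair (by decide), e8, e9]; exact h189)
    rwa [Finset.sum_pair (by decide)] at this
  have h30 : ∀ u, 0 ≤ t3 u := fun u => (h20 u).trans (hm3.le u)
  have h31 : ∀ u, t3 u ≤ 1 := hm3.le_one h20 h21
  have hsum3 := sum_ten t3
  rw [hs3'] at hsum3
  have m0 := hm3.le 0
  have m1 := hm3.le 1
  have m2 := hm3.le 2
  have m3 := hm3.le 3
  have m4 := hm3.le 4
  have m5 := hm3.le 5
  have m6 := hm3.le 6
  have m7 := hm3.le 7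
  have m8 := hm3.le 8
  have m9 := hm3.le 9
  rw [e0] at m0
  rw [e1] at m1
  rw [e2] at m2
  rw [e3] at m3
  rw [e4] at m4
  rw [e5] at m5
  rw [e6] at m6
  rw [e7] at m7
  rw [e8] at m8
  rw [e9] at m9
  apply forces_of_sub t3 h30 h31 hn3
  rcases le_total 1 (t3 0 + t3 1 + t3 2 + t3 3) with h | h
  · rcases le_total (t3 2 + t3 3) (t3 0 + t3 1) with h' | h'
    · obtain ⟨t', s', a, b, c⟩ := late t3 h30 0 1 2 3 (by decide) (by decide) (by decide)
        (by rw [mem_H0]; decide) (by rw [mem_H0]; decide) (by decide) (by linarith) (by linarith)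
      exact ⟨t', s', a, b, Or.inl c⟩
    · obtain ⟨t', s', a, b, c⟩ := late t3 h30 2 3 0 1 (by decide) (by decide) (by decide)
        (by rw [mem_H0]; decide) (by rw [mem_H0]; decide) (by decide) (by linarith) (by linarith)
      exact ⟨t', s', a, b, Or.inr (Or.inr (Or.inl c))⟩
  · rcases le_total (t3 6 + t3 7) (t3 4 + t3 5) with h' | h'
    · obtain ⟨t', s', a, b, c⟩ := late t3 h30 4 5 6 7 (by decide) (by decide) (by decide)
        (by rw [mem_H0]; decide) (by rw [mem_H0]; decide) (by decide) (by linarith) (by linarith)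
      exact ⟨t', s', a, b, Or.inr (Or.inr (Or.inr (Or.inr (Or.inl c))))⟩
    · obtain ⟨t', s', a, b, c⟩ := late t3 h30 6 7 4 5 (by decide) (by decide) (by decide)
        (by rw [mem_H0]; decide) (by rw [mem_H0]; decide) (by decide) (by linarith) (by linarith)
      exact ⟨t', s', a, b, Or.inr (Or.inr (Or.inr (Or.inr (Or.inr (Or.inr (Or.inl c))))))⟩

/-- There is a hypergraph (a graph with ten vertices and nine edges: two four-cycles and an edge)
with integer transversal game number 5, in whose fractional game Staller can force a value of at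
least `41/8`. -/
theorem result : ∃ H : Finset (Finset (Fin 10)), (∀ E ∈ H, E.card = 2) ∧
    Forces (IntMove H) (IntCovered H) (fun S => S.card ≤ 5) true ∅ ∧
    Forces (IntMove H) (IntCovered H) (fun S => 5 ≤ S.card) false ∅ ∧
    Forces (FracMove H) (FracCovered H) (fun t => 41 / 8 ≤ ∑ v, t v) false 0 ∧
    ∀ y : ℝ, Forces (FracMove H) (FracCovered H) (fun t => ∑ v, t v ≤ y) true 0 → 41 / 8 ≤ y := by
  refine ⟨H0, H0_card, int_upper, int_lower false ∅, frac_lower, ?_⟩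
  intro y hy
  obtain ⟨q, -, h1, h2⟩ := hy.meet frac_lower
  exact h2.trans h1

end Pool.Agent.Results.MP_efe87e_co.FractionalExceedsInteger
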